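import Mathlib

/-!
# Almost all pure complexes with fixed facet size are shellable

A pure complex with facet size `d` on `m` vertices is given by its family `X` of facets, a family
of `d`-subsets of `Fin m`.  We prove that, for every fixed `d ≥ 1`, the proportion of shellable
ones among all of them tends to `1` as `m → ∞`.

Deterministic part: if for every `d`-set `T` there is a vertex `c ∉ T` with
`T \ {s} ∪ {c} ∈ X` for all `s ∈ T`, then `X` is shellable.
-/

namespace Pool.Agent.Results.MP_87030c_co.AlmostAllShellable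

/-- The simplicial complex generated by the members of the list `L`: all subsets of members. -/
def complexOf {α : Type*} (L : List (Finset α)) : Set (Finset α) :=
  {G | ∃ F ∈ L, G ⊆ F}

/-- `L = [F_0, ..., F_{t-1}]` satisfies the shelling condition for facet size `d`: for every
`0 < j < t`, every maximal face of the intersection of the complex generated by `F_j` with the
complex generated by `F_0, ..., F_{j-1}` has exactly `d - 1` elements. -/
def IsShellingOrder {α : Type*} (d : ℕ) (L : List (Finset α)) : Prop :=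
  ∀ j : ℕ, 0 < j → ∀ hj : j < L.length, ∀ H : Finset α,
    Maximal (fun G => G ∈ complexOf [L[j]] ∧ G ∈ complexOf (L.take j)) H → H.card = d - 1

/-- The pure complex with facet size `d` whose set of facets is `X` is shellable: its facets can be
listed without repetition in an order satisfying the shelling condition. -/
def Shellable {α : Type*} (d : ℕ) (X : Finset (Finset α)) : Prop :=
  ∃ L : List (Finset α), L.Nodup ∧ (∀ F, F ∈ L ↔ F ∈ X) ∧ IsShellingOrder d L

/-- Partial shellings with facets of size `k + 1`, listed in reverse order. -/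
inductive Sh {α : Type*} (k : ℕ) : List (Finset α) → Prop
  | nil : Sh k []
  | cons (F : Finset α) (L : List (Finset α)) (hL : Sh k L) (hc : F.card = k + 1) (hF : F ∉ L)
      (hstep : L ≠ [] → ∀ G, G ⊆ F → G ∈ complexOf L →
        ∃ H, G ⊆ H ∧ H ⊆ F ∧ H ∈ complexOf L ∧ H.card = k) : Sh k (F :: L)

variable {α : Type*}

lemma Sh.card {k : ℕ} {L : List (Finset α)} (h : Sh k L) : ∀ F ∈ L, F.card = k + 1 := by
  induction h with
  | nil => intro F hF; simp at hF
  | cons F L hL hc hF hstep ih =>
    intro G hG
    rcases List.mem_cons.1 hG with rfl | hG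
    · exact hc
    · exact ih G hG

lemma Sh.nodup {k : ℕ} {L : List (Finset α)} (h : Sh k L) : L.Nodup := by
  induction h with
  | nil => exact List.nodup_nil
  | cons F L hL hc hF hstep ih => exact List.nodup_cons.2 ⟨hF, ih⟩

lemma complexOf_reverse (L : List (Finset α)) : complexOf L.reverse = complexOf L := by
  ext G; simp [complexOf]

lemma complexOf_mono {L L' : List (Finset α)} (h : ∀ F ∈ L, F ∈ L') :
    complexOf L ⊆ complexOf L' := by
  rintro G ⟨F, hF, hG⟩
  exact ⟨F, h F hF, hG⟩

lemma complexOf_down {L : List (Finset α)} {G G' : Finset α} (h : G ∈ complexOf L)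
    (h' : G' ⊆ G) : G' ∈ complexOf L := by
  obtain ⟨F, hF, hG⟩ := h
  exact ⟨F, hF, h'.trans hG⟩

lemma Sh.isShellingOrder {k : ℕ} {L : List (Finset α)} (h : Sh k L) :
    IsShellingOrder (k + 1) L.reverse := by
  induction h with
  | nil => intro j hj hj'; simp at hj'
  | cons F L hL hc hF hstep ih =>
    intro j hj hj' H hH
    rw [List.length_reverse, List.length_cons] at hj'
    rcases Nat.lt_succ_iff_lt_or_eq.1 hj' with hlt | heq
    · apply ih j hj (by simpa using hlt) H
      have e1 : ((F :: L).reverse)[j]'(by simpa using hj') = (L.reverse)[j]'(by simpa using hlt) := by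
        simp only [List.reverse_cons]
        rw [List.getElem_append_left]
      have e2 : ((F :: L).reverse).take j = (L.reverse).take j := by
        rw [List.reverse_cons, List.take_append_of_le_length]
        simpa using hlt.le
      rw [e1, e2] at hH
      exact hH
    · subst heq
      have e1 : ((F :: L).reverse)[L.length]'(by simp) = F := by
        simp [List.reverse_cons]
      have e2 : ((F :: L).reverse).take L.length = L.reverse := by
        rw [List.reverse_cons]
        have := List.take_left' (l₁ := L.reverse) (l₂ := [F]) (i := L.length) (by simp)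
        exact this
      rw [e1, e2, complexOf_reverse] at hH
      have hne : L ≠ [] := by
        rintro rfl; simp at hj
      obtain ⟨⟨hH1, hH2⟩, hmax⟩ := hH
      have hH1' : H ⊆ F := by
        obtain ⟨F', hF', h'⟩ := hH1
        simp at hF'; subst hF'; exact h'
      obtain ⟨H', h1, h2, h3, h4⟩ := hstep hne H hH1' hH2
      have : H' ≤ H := hmax ⟨⟨F, by simp, h2⟩, h3⟩ h1
      have heq : H = H' := le_antisymm h1 this
      rw [heq, h4]; rfl

/-- Once all `k`-subsets of `V` are covered, further `(k+1)`-subsets may be added freely. -/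
lemma Sh.add_all [DecidableEq α] {k : ℕ} {V : Finset α} {L : List (Finset α)} (hL : Sh k L)
    (hcov : ∀ S ⊆ V, S.card = k → S ∈ complexOf L) (M : Finset (Finset α))
    (hM : ∀ F ∈ M, F ⊆ V ∧ F.card = k + 1) :
    ∃ L' : List (Finset α), Sh k L' ∧ (∀ F, F ∈ L' ↔ F ∈ L ∨ F ∈ M) := by
  induction M using Finset.induction_on with
  | empty => exact ⟨L, hL, by simp⟩
  | insert F M hFM ih =>
    obtain ⟨L', h1, h2⟩ := ih (fun F hF => hM F (Finset.mem_insert_of_mem hF))
    by_cases hF : F ∈ L'
    · refine ⟨L', h1, fun F' => ?_⟩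
      rw [h2, Finset.mem_insert]
      constructor
      · rintro (h | h)
        · exact Or.inl h
        · exact Or.inr (Or.inr h)
      · rintro (h | rfl | h)
        · exact Or.inl h
        · exact (h2 F').1 hF
        · exact Or.inr h
    · refine ⟨F :: L', Sh.cons F L' h1 (hM F (Finset.mem_insert_self _ _)).2 hF ?_, fun F' => ?_⟩
      · intro _ G hG hG'
        have hFV := (hM F (Finset.mem_insert_self _ _)).1
        have hFc := (hM F (Finset.mem_insert_self _ _)).2
        -- `G ≠ F`
        have hGF : ¬ F ⊆ G := by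
          intro h
          obtain ⟨F', hF', h'⟩ := complexOf_down hG' h
          have := Finset.eq_of_subset_of_card_le h' (by rw [h1.card F' hF', hFc])
          exact hF (this ▸ hF')
        obtain ⟨s, hs, hsG⟩ := Finset.not_subset.1 hGF
        refine ⟨F.erase s, ?_, Finset.erase_subset _ _, ?_, ?_⟩
        · intro a ha
          exact Finset.mem_erase.2 ⟨fun h => hsG (h ▸ ha), hG ha⟩
        · apply complexOf_mono (L := L) (fun F hF => (h2 F).2 (Or.inl hF))
          apply hcov _ ((Finset.erase_subset _ _).trans hFV)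
          rw [Finset.card_erase_of_mem hs, hFc]; rfl
        · rw [Finset.card_erase_of_mem hs, hFc]; rfl
      · rw [List.mem_cons, h2, Finset.mem_insert]
        tauto

/-- Coning a partial shelling over a new vertex. -/
lemma Sh.map_insert [DecidableEq α] {k : ℕ} {L : List (Finset α)} (hL : Sh k L) (x : α)
    (hx : ∀ F ∈ L, x ∉ F) : Sh (k + 1) (L.map (fun F => insert x F)) := by
  induction hL with
  | nil => exact Sh.nil
  | cons F L hL hc hF hstep ih =>
    have hxF : x ∉ F := hx F (by simp)
    have hxL : ∀ F ∈ L, x ∉ F := fun F hF => hx F (List.mem_cons_of_mem _ hF)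
    rw [List.map_cons]
    refine Sh.cons _ _ (ih hxL) ?_ ?_ ?_
    · rw [Finset.card_insert_of_notMem hxF, hc]
    · intro h
      obtain ⟨F', hF', h'⟩ := List.mem_map.1 h
      have : F' = F := by
        have h1 := congrArg (fun A => Finset.erase A x) h'
        simpa [Finset.erase_insert (hxL F' hF'), Finset.erase_insert hxF] using h1
      exact hF (this ▸ hF')
    · intro hne G hG hG'
      have hne' : L ≠ [] := by
        rintro rfl; simp at hne
      obtain ⟨F1', hF1', hGF1⟩ := hG'
      obtain ⟨F1, hF1, rfl⟩ := List.mem_map.1 hF1'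
      have h1 : G.erase x ⊆ F := by
        intro a ha
        have := hG (Finset.mem_of_mem_erase ha)
        rcases Finset.mem_insert.1 this with h | h
        · exact absurd h (Finset.ne_of_mem_erase ha)
        · exact h
      have h2 : G.erase x ∈ complexOf L := by
        refine ⟨F1, hF1, ?_⟩
        intro a ha
        have := hGF1 (Finset.mem_of_mem_erase ha)
        rcases Finset.mem_insert.1 this with h | h
        · exact absurd h (Finset.ne_of_mem_erase ha)
        · exact h
      obtain ⟨H, hH1, hH2, hH3, hH4⟩ := hstep hne' _ h1 h2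
      refine ⟨insert x H, ?_, Finset.insert_subset_insert _ hH2, ?_, ?_⟩
      · intro a ha
        by_cases hax : a = x
        · rw [hax]; exact Finset.mem_insert_self _ _
        · exact Finset.mem_insert_of_mem (hH1 (Finset.mem_erase.2 ⟨hax, ha⟩))
      · obtain ⟨F2, hF2, hHF2⟩ := hH3
        exact ⟨insert x F2, List.mem_map.2 ⟨F2, hF2, rfl⟩, Finset.insert_subset_insert _ hHF2⟩
      · rw [Finset.card_insert_of_notMem (fun h => hxF (hH2 h)), hH4]

/-- The covering step: every `(k+1)`-set `S` in a given family can be covered by adding facets. -/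
lemma cover_step [DecidableEq α] {k : ℕ} {X : Finset (Finset α)} {x : α} {L : List (Finset α)}
    (hL : Sh (k + 1) L) (hLX : ∀ F ∈ L, F ∈ X)
    (hstar : ∀ F ∈ X, x ∈ F → F ∈ L)
    (M : Finset (Finset α)) (hMc : ∀ S ∈ M, S.card = k + 1)
    (hM : ∀ S ∈ M, x ∉ S ∧ ∃ c, c ∉ S ∧ c ≠ x ∧ insert c S ∈ X ∧
      ∀ s ∈ S, insert x (insert c (S.erase s)) ∈ X) :
    ∃ L' : List (Finset α), Sh (k + 1) L' ∧ (∀ F ∈ L', F ∈ X) ∧ (∀ F ∈ L, F ∈ L') ∧
      ∀ S ∈ M, S ∈ complexOf L' := by
  induction M using Finset.induction_on with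
  | empty => exact ⟨L, hL, hLX, fun _ h => h, by simp⟩
  | insert S M hSM ih =>
    obtain ⟨L', h1, h2, h3, h4⟩ := ih (fun S hS => hMc S (Finset.mem_insert_of_mem hS))
      (fun S hS => hM S (Finset.mem_insert_of_mem hS))
    by_cases hS : S ∈ complexOf L'
    · refine ⟨L', h1, h2, h3, fun T hT => ?_⟩
      rcases Finset.mem_insert.1 hT with rfl | hT
      · exact hS
      · exact h4 T hT
    · obtain ⟨hxS, c, hcS, hcx, hcX, hcs⟩ := hM S (Finset.mem_insert_self _ _)
      have hSc := hMc S (Finset.mem_insert_self _ _)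
      refine ⟨insert c S :: L', Sh.cons _ _ h1 ?_ ?_ ?_, ?_, ?_, ?_⟩
      · rw [Finset.card_insert_of_notMem hcS, hSc]
      · intro h
        exact hS ⟨_, h, Finset.subset_insert _ _⟩
      · intro _ G hG hG'
        have hSG : ¬ S ⊆ G := fun h => hS (complexOf_down hG' h)
        obtain ⟨s, hs, hsG⟩ := Finset.not_subset.1 hSG
        have hcne : c ∉ S.erase s := fun h => hcS (Finset.mem_of_mem_erase h)
        refine ⟨insert c (S.erase s), ?_, ?_, ?_, ?_⟩
        · intro a ha
          rcases Finset.mem_insert.1 (hG ha) with h | h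
          · rw [h]; exact Finset.mem_insert_self _ _
          · exact Finset.mem_insert_of_mem (Finset.mem_erase.2 ⟨fun h' => hsG (h' ▸ ha), h⟩)
        · exact Finset.insert_subset_insert _ (Finset.erase_subset _ _)
        · exact ⟨_, h3 _ (hstar _ (hcs s hs) (Finset.mem_insert_self _ _)),
            Finset.subset_insert _ _⟩
        · rw [Finset.card_insert_of_notMem hcne, Finset.card_erase_of_mem hs, hSc]; rfl
      · intro F hF
        rcases List.mem_cons.1 hF with rfl | hF
        · exact hcX
        · exact h2 F hF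
      · intro F hF
        exact List.mem_cons_of_mem _ (h3 F hF)
      · intro T hT
        rcases Finset.mem_insert.1 hT with rfl | hT
        · exact ⟨_, List.mem_cons_self .., Finset.subset_insert _ _⟩
        · exact complexOf_mono (fun F hF => List.mem_cons_of_mem _ hF) (h4 T hT)

/-- A family of `(k+1)`-sets which has a complete shelling covering all `k`-subsets of `V`. -/
def Good [DecidableEq α] (k : ℕ) (X : Finset (Finset α)) (V : Finset α) : Prop :=
  ∃ L : List (Finset α), Sh k L ∧ (∀ F, F ∈ L ↔ F ∈ X) ∧ ∀ S ⊆ V, S.card = k → S ∈ complexOf L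

/-- The deterministic criterion. -/
theorem good_of_ext [DecidableEq α] (k : ℕ) : ∀ (V : Finset α) (X : Finset (Finset α)),
    k + 1 ≤ V.card → (∀ F ∈ X, F ⊆ V ∧ F.card = k + 1) →
    (∀ T ⊆ V, T.card = k + 1 → ∃ c ∈ V, c ∉ T ∧ ∀ s ∈ T, insert c (T.erase s) ∈ X) →
    Good k X V := by
  induction k with
  | zero =>
    intro V X hV hX hext
    obtain ⟨t, ht⟩ : V.Nonempty := Finset.card_pos.1 (by omega)
    obtain ⟨c, hcV, hct, hc⟩ := hext {t} (by simpa using ht) (by simp)
    have hcX : {c} ∈ X := by
      have := hc t (by simp)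
      simpa using this
    have h0 : Sh 0 [({c} : Finset α)] :=
      Sh.cons _ _ Sh.nil (by simp) (by simp) (by intro h; exact absurd rfl h)
    have hcov : ∀ S ⊆ V, S.card = 0 → S ∈ complexOf [({c} : Finset α)] := by
      intro S _ hS
      rw [Finset.card_eq_zero] at hS
      subst hS
      exact ⟨{c}, by simp, by simp⟩
    obtain ⟨L', h1, h2⟩ := h0.add_all hcov X hX
    refine ⟨L', h1, fun F => ?_, fun S hS hS' => ?_⟩
    · rw [h2]
      constructor
      · rintro (h | h)
        · simp at h; rw [h]; exact hcX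
        · exact h
      · exact fun h => Or.inr h
    · exact complexOf_mono (fun F hF => (h2 F).2 (Or.inl hF)) (hcov S hS hS')
  | succ k ih =>
    intro V X hV hX hext
    obtain ⟨x, hx⟩ : V.Nonempty := Finset.card_pos.1 (by omega)
    -- the link of `x`
    let Y : Finset (Finset α) := (X.filter (fun F => x ∈ F)).image (fun F => F.erase x)
    have hY : ∀ F, F ∈ Y ↔ x ∉ F ∧ insert x F ∈ X := by
      intro F
      simp only [Y, Finset.mem_image, Finset.mem_filter]
      constructor
      · rintro ⟨F', ⟨hF', hxF'⟩, rfl⟩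
        exact ⟨Finset.notMem_erase _ _, by rwa [Finset.insert_erase hxF']⟩
      · rintro ⟨hxF, hF⟩
        exact ⟨insert x F, ⟨hF, Finset.mem_insert_self _ _⟩, Finset.erase_insert hxF⟩
    have hgood : Good k Y (V.erase x) := by
      apply ih
      · rw [Finset.card_erase_of_mem hx]; omega
      · intro F hF
        obtain ⟨h1, h2⟩ := (hY F).1 hF
        obtain ⟨h3, h4⟩ := hX _ h2
        refine ⟨fun a ha => Finset.mem_erase.2 ⟨fun h => h1 (h ▸ ha),
          h3 (Finset.mem_insert_of_mem ha)⟩, ?_⟩
        rw [Finset.card_insert_of_notMem h1] at h4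
        omega
      · intro T hT hTc
        have hxT : x ∉ T := fun h => Finset.notMem_erase x V (hT h)
        obtain ⟨c, hcV, hcT, hc⟩ := hext (insert x T)
          (Finset.insert_subset hx (hT.trans (Finset.erase_subset _ _)))
          (by rw [Finset.card_insert_of_notMem hxT, hTc])
        have hcx : c ≠ x := fun h => hcT (h ▸ Finset.mem_insert_self _ _)
        have hcT' : c ∉ T := fun h => hcT (Finset.mem_insert_of_mem h)
        refine ⟨c, Finset.mem_erase.2 ⟨hcx, hcV⟩, hcT', fun s hs => ?_⟩
        have hsx : x ≠ s := fun h => hxT (h ▸ hs)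
        rw [hY]
        refine ⟨?_, ?_⟩
        · intro h
          rcases Finset.mem_insert.1 h with h | h
          · exact hcx h.symm
          · exact hxT (Finset.mem_of_mem_erase h)
        · have := hc s (Finset.mem_insert_of_mem hs)
          rwa [Finset.erase_insert_of_ne hsx, Finset.insert_comm] at this
    obtain ⟨L0, hL0, hL0X, hL0cov⟩ := hgood
    have hxL0 : ∀ F ∈ L0, x ∉ F := fun F hF => ((hY F).1 ((hL0X F).1 hF)).1
    have hL1 := hL0.map_insert x hxL0
    set L1 := L0.map (fun F => insert x F) with hL1def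
    have hL1X : ∀ F ∈ L1, F ∈ X := by
      intro F hF
      obtain ⟨F', hF', rfl⟩ := List.mem_map.1 hF
      exact ((hY F').1 ((hL0X F').1 hF')).2
    have hstar : ∀ F ∈ X, x ∈ F → F ∈ L1 := by
      intro F hF hxF
      refine List.mem_map.2 ⟨F.erase x, ?_, Finset.insert_erase hxF⟩
      rw [hL0X, hY]
      exact ⟨Finset.notMem_erase _ _, by rwa [Finset.insert_erase hxF]⟩
    let M : Finset (Finset α) := Finset.powersetCard (k + 1) (V.erase x)
    have hMmem : ∀ S, S ∈ M ↔ S ⊆ V.erase x ∧ S.card = k + 1 := fun S => Finset.mem_powersetCard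
    obtain ⟨L2, h1, h2, h3, h4⟩ := cover_step hL1 hL1X hstar M (fun S hS => ((hMmem S).1 hS).2)
      (by
        intro S hS
        obtain ⟨hSV, hSc⟩ := (hMmem S).1 hS
        have hxS : x ∉ S := fun h => Finset.notMem_erase x V (hSV h)
        refine ⟨hxS, ?_⟩
        obtain ⟨c, hcV, hcT, hc⟩ := hext (insert x S)
          (Finset.insert_subset hx (hSV.trans (Finset.erase_subset _ _)))
          (by rw [Finset.card_insert_of_notMem hxS, hSc])
        have hcx : c ≠ x := fun h => hcT (h ▸ Finset.mem_insert_self _ _)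
        have hcS : c ∉ S := fun h => hcT (Finset.mem_insert_of_mem h)
        refine ⟨c, hcS, hcx, ?_, fun s hs => ?_⟩
        · have := hc x (Finset.mem_insert_self _ _)
          rwa [Finset.erase_insert hxS] at this
        · have hsx : x ≠ s := fun h => hxS (h ▸ hs)
          have := hc s (Finset.mem_insert_of_mem hs)
          rwa [Finset.erase_insert_of_ne hsx, Finset.insert_comm] at this)
    have hcov : ∀ S ⊆ V, S.card = k + 1 → S ∈ complexOf L2 := by
      intro S hS hSc
      by_cases hxS : x ∈ S
      · have hS' : S.erase x ∈ complexOf L0 := by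
          apply hL0cov
          · exact Finset.erase_subset_erase _ hS
          · rw [Finset.card_erase_of_mem hxS, hSc]; rfl
        obtain ⟨F, hF, hSF⟩ := hS'
        refine ⟨insert x F, h3 _ (List.mem_map.2 ⟨F, hF, rfl⟩), ?_⟩
        rw [← Finset.insert_erase hxS]
        exact Finset.insert_subset_insert _ hSF
      · apply h4
        rw [hMmem]
        exact ⟨fun a ha => Finset.mem_erase.2 ⟨fun h => hxS (h ▸ ha), hS ha⟩, hSc⟩
    obtain ⟨L', h5, h6⟩ := h1.add_all hcov X hX
    refine ⟨L', h5, fun F => ?_, fun S hS hS' => ?_⟩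
    · rw [h6]
      constructor
      · rintro (h | h)
        · exact h2 F h
        · exact h
      · exact fun h => Or.inr h
    · exact complexOf_mono (fun F hF => (h6 F).2 (Or.inl hF)) (hcov S hS hS')

theorem Good.shellable [DecidableEq α] {k : ℕ} {X : Finset (Finset α)} {V : Finset α}
    (h : Good k X V) : Shellable (k + 1) X := by
  obtain ⟨L, h1, h2, _⟩ := h
  exact ⟨L.reverse, List.nodup_reverse.2 h1.nodup, fun F => by rw [List.mem_reverse, h2],
    h1.isShellingOrder⟩

/-- Counting subfamilies of `U` which contain none of the pairwise disjoint blocks `B c`. -/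
lemma count_avoid {β γ : Type*} [DecidableEq β] [DecidableEq γ] (r : ℕ) (B : γ → Finset β)
    (C : Finset γ) : ∀ U : Finset β, (∀ c ∈ C, B c ⊆ U) → (∀ c ∈ C, (B c).card = r) →
    (∀ c ∈ C, ∀ c' ∈ C, c ≠ c' → Disjoint (B c) (B c')) →
    (U.powerset.filter (fun X => ∀ c ∈ C, ¬ B c ⊆ X)).card * 2 ^ (r * C.card) ≤
      2 ^ U.card * (2 ^ r - 1) ^ C.card := by
  induction C using Finset.induction_on with
  | empty =>
    intro U _ _ _
    simp
  | insert c0 C hc0 ih =>
    intro U hU hr hdisj
    have hB0 : B c0 ⊆ U := hU c0 (Finset.mem_insert_self _ _)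
    have hr0 : (B c0).card = r := hr c0 (Finset.mem_insert_self _ _)
    have ih' := ih (U \ B c0)
      (fun c hc => by
        intro b hb
        refine Finset.mem_sdiff.2 ⟨hU c (Finset.mem_insert_of_mem hc) hb, fun h => ?_⟩
        have hne : c ≠ c0 := fun h => hc0 (h ▸ hc)
        exact (Finset.disjoint_left.1 (hdisj c (Finset.mem_insert_of_mem hc) c0
          (Finset.mem_insert_self _ _) hne)) hb h)
      (fun c hc => hr c (Finset.mem_insert_of_mem hc))
      (fun c hc c' hc' => hdisj c (Finset.mem_insert_of_mem hc) c' (Finset.mem_insert_of_mem hc'))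
    have hcard : (U.powerset.filter (fun X => ∀ c ∈ insert c0 C, ¬ B c ⊆ X)).card ≤
        (2 ^ r - 1) * ((U \ B c0).powerset.filter (fun X => ∀ c ∈ C, ¬ B c ⊆ X)).card := by
      have h1 : ((B c0).powerset.erase (B c0)).card = 2 ^ r - 1 := by
        rw [Finset.card_erase_of_mem (Finset.mem_powerset_self _), Finset.card_powerset, hr0]
      rw [← h1, ← Finset.card_product]
      apply Finset.card_le_card_of_injOn (fun X => (X ∩ B c0, X \ B c0))
      · intro X hX
        simp only [Finset.coe_filter, Finset.mem_powerset, Set.mem_ofPred_eq] at hX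
        simp only [Finset.coe_product, Set.mem_prod, Finset.mem_coe, Finset.mem_erase,
          Finset.mem_powerset, Finset.mem_filter]
        refine ⟨⟨?_, Finset.inter_subset_right⟩, ?_, ?_⟩
        · intro h
          exact hX.2 c0 (Finset.mem_insert_self _ _) (Finset.inter_eq_right.1 h)
        · exact Finset.sdiff_subset_sdiff hX.1 (Finset.Subset.refl _)
        · intro c hc h
          exact hX.2 c (Finset.mem_insert_of_mem hc) (h.trans Finset.sdiff_subset)
      · intro X _ Y _ h
        simp only [Prod.mk.injEq] at h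
        rw [← Finset.sdiff_union_inter X (B c0), ← Finset.sdiff_union_inter Y (B c0), h.1, h.2]
    have hUc : (U \ B c0).card + r = U.card := by
      rw [← hr0]; exact Finset.card_sdiff_add_card_eq_card hB0
    rw [Finset.card_insert_of_notMem hc0]
    calc (U.powerset.filter (fun X => ∀ c ∈ insert c0 C, ¬ B c ⊆ X)).card * 2 ^ (r * (C.card + 1))
        ≤ ((2 ^ r - 1) * ((U \ B c0).powerset.filter (fun X => ∀ c ∈ C, ¬ B c ⊆ X)).card) *
            2 ^ (r * (C.card + 1)) := Nat.mul_le_mul_right _ hcard
      _ = (2 ^ r - 1) * 2 ^ r *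
          (((U \ B c0).powerset.filter (fun X => ∀ c ∈ C, ¬ B c ⊆ X)).card * 2 ^ (r * C.card)) := by
            rw [mul_add, pow_add, mul_one]; ring
      _ ≤ (2 ^ r - 1) * 2 ^ r * (2 ^ (U \ B c0).card * (2 ^ r - 1) ^ C.card) :=
            Nat.mul_le_mul_left _ ih'
      _ = 2 ^ U.card * (2 ^ r - 1) ^ (C.card + 1) := by
            rw [← hUc, pow_add, pow_succ]; ring

/-- The block attached to a `d`-set `T` and a vertex `c`. -/
def block {m : ℕ} (T : Finset (Fin m)) (c : Fin m) : Finset (Finset (Fin m)) :=
  T.image (fun s => insert c (T.erase s))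

lemma block_card {m : ℕ} (T : Finset (Fin m)) (c : Fin m) (hc : c ∉ T) :
    (block T c).card = T.card := by
  unfold block
  apply Finset.card_image_of_injOn
  intro s hs s' hs' h
  by_contra hne
  have h1 : s' ∈ insert c (T.erase s) :=
    Finset.mem_insert_of_mem (Finset.mem_erase.2 ⟨fun h => hne h.symm, hs'⟩)
  have h2 : s' ∈ insert c (T.erase s') := by
    have : (fun s => insert c (T.erase s)) s = (fun s => insert c (T.erase s)) s' := h
    simp only at this
    rw [← this]; exact h1
  rcases Finset.mem_insert.1 h2 with h3 | h3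
  · exact hc (h3 ▸ hs')
  · exact Finset.notMem_erase _ _ h3

lemma block_sub {m d : ℕ} (T : Finset (Fin m)) (hT : T.card = d) (c : Fin m) (hc : c ∉ T) :
    block T c ⊆ Finset.powersetCard d (Finset.univ : Finset (Fin m)) := by
  intro F hF
  unfold block at hF
  obtain ⟨s, hs, rfl⟩ := Finset.mem_image.1 hF
  rw [Finset.mem_powersetCard]
  refine ⟨Finset.subset_univ _, ?_⟩
  rw [Finset.card_insert_of_notMem (fun h => hc (Finset.mem_of_mem_erase h)),
    Finset.card_erase_of_mem hs, hT]
  have : 0 < T.card := Finset.card_pos.2 ⟨s, hs⟩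
  omega

lemma block_disj {m : ℕ} (T : Finset (Fin m)) (c c' : Fin m) (hc : c ∉ T) (hcc : c ≠ c') :
    Disjoint (block T c) (block T c') := by
  rw [Finset.disjoint_left]
  intro F hF hF'
  unfold block at hF hF'
  obtain ⟨s, hs, rfl⟩ := Finset.mem_image.1 hF
  obtain ⟨s', hs', h⟩ := Finset.mem_image.1 hF'
  have : c ∈ insert c' (T.erase s') := by rw [h]; exact Finset.mem_insert_self _ _
  rcases Finset.mem_insert.1 this with h1 | h1
  · exact hcc h1
  · exact hc (Finset.mem_of_mem_erase h1)

open Classical in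
/-- The number of non-shellable pure complexes with facet size `d = k + 1` on `m` vertices. -/
lemma card_bad (m k : ℕ) (hm : k + 1 ≤ m) :
    ((Finset.powersetCard (k + 1) (Finset.univ : Finset (Fin m))).powerset.filter
      (fun X => ¬ Shellable (k + 1) X)).card * 2 ^ ((k + 1) * (m - (k + 1))) ≤
    m.choose (k + 1) * (2 ^ (m.choose (k + 1)) * (2 ^ (k + 1) - 1) ^ (m - (k + 1))) := by
  set U := Finset.powersetCard (k + 1) (Finset.univ : Finset (Fin m)) with hU
  have hUc : U.card = m.choose (k + 1) := by simp [hU]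
  have hsub : U.powerset.filter (fun X => ¬ Shellable (k + 1) X) ⊆
      U.biUnion (fun T => U.powerset.filter
        (fun X => ∀ c ∈ (Finset.univ \ T : Finset (Fin m)), ¬ block T c ⊆ X)) := by
    intro X hX
    rw [Finset.mem_filter, Finset.mem_powerset] at hX
    obtain ⟨hXU, hXs⟩ := hX
    by_contra hcon
    apply hXs
    apply Good.shellable (V := Finset.univ)
    apply good_of_ext
    · simpa using hm
    · intro F hF
      have := hXU hF
      rw [hU, Finset.mem_powersetCard] at this
      exact this
    · intro T _ hT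
      have hTU : T ∈ U := by rw [hU, Finset.mem_powersetCard]; exact ⟨Finset.subset_univ _, hT⟩
      by_contra hno
      apply hcon
      rw [Finset.mem_biUnion]
      refine ⟨T, hTU, ?_⟩
      rw [Finset.mem_filter, Finset.mem_powerset]
      refine ⟨hXU, fun c hc hsub => hno ⟨c, Finset.mem_univ _, (Finset.mem_sdiff.1 hc).2, ?_⟩⟩
      intro s hs
      exact hsub (Finset.mem_image.2 ⟨s, hs, rfl⟩)
  calc (U.powerset.filter (fun X => ¬ Shellable (k + 1) X)).card * 2 ^ ((k + 1) * (m - (k + 1)))
      ≤ (∑ T ∈ U, (U.powerset.filter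
        (fun X => ∀ c ∈ (Finset.univ \ T : Finset (Fin m)), ¬ block T c ⊆ X)).card) *
          2 ^ ((k + 1) * (m - (k + 1))) :=
        Nat.mul_le_mul_right _ ((Finset.card_le_card hsub).trans Finset.card_biUnion_le)
    _ = ∑ T ∈ U, (U.powerset.filter
        (fun X => ∀ c ∈ (Finset.univ \ T : Finset (Fin m)), ¬ block T c ⊆ X)).card *
          2 ^ ((k + 1) * (m - (k + 1))) := by rw [Finset.sum_mul]
    _ ≤ ∑ T ∈ U, 2 ^ (m.choose (k + 1)) * (2 ^ (k + 1) - 1) ^ (m - (k + 1)) := by
        apply Finset.sum_le_sum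
        intro T hT
        rw [hU, Finset.mem_powersetCard] at hT
        have hTc : (Finset.univ \ T : Finset (Fin m)).card = m - (k + 1) := by
          rw [Finset.card_sdiff_of_subset hT.1, hT.2]; simp
        have := count_avoid (k + 1) (block T) (Finset.univ \ T : Finset (Fin m)) U
          (fun c hc => block_sub T hT.2 c (Finset.mem_sdiff.1 hc).2)
          (fun c hc => by rw [block_card T c (Finset.mem_sdiff.1 hc).2, hT.2])
          (fun c hc c' _ hcc => block_disj T c c' (Finset.mem_sdiff.1 hc).2 hcc)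
        rw [hTc, hUc] at this
        refine le_trans (le_of_eq ?_) this
        congr
    _ = m.choose (k + 1) * (2 ^ (m.choose (k + 1)) * (2 ^ (k + 1) - 1) ^ (m - (k + 1))) := by
        rw [Finset.sum_const, hUc, smul_eq_mul]

/-- **Almost all pure complexes with facet size `d` are shellable**, for every fixed `d ≥ 1`:
the number of shellable ones on `m` vertices divided by the number of all of them tends to `1`. -/
theorem result (d : ℕ) (hd : 1 ≤ d) :
    Filter.Tendsto (fun m : ℕ =>
      (({X : Finset (Finset (Fin m)) | (∀ F ∈ X, F.card = d) ∧ Shellable d X}.ncard : ℕ) : ℝ) /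
      (({X : Finset (Finset (Fin m)) | ∀ F ∈ X, F.card = d}.ncard : ℕ) : ℝ))
      Filter.atTop (nhds 1) := by
  classical
  obtain ⟨k, rfl⟩ : ∃ k, d = k + 1 := ⟨d - 1, by omega⟩
  have hall : ∀ m : ℕ, {X : Finset (Finset (Fin m)) | ∀ F ∈ X, F.card = k + 1} =
      ((Finset.powersetCard (k + 1) (Finset.univ : Finset (Fin m))).powerset : Set _) := by
    intro m; ext X
    simp [Finset.subset_iff, Finset.mem_powersetCard]
  have hgoodset : ∀ m : ℕ, {X : Finset (Finset (Fin m)) | (∀ F ∈ X, F.card = k + 1) ∧
      Shellable (k + 1) X} = (((Finset.powersetCard (k + 1) (Finset.univ : Finset (Fin m))).powerset.filter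
        (fun X => Shellable (k + 1) X) : Finset _) : Set _) := by
    intro m; ext X
    simp [Finset.subset_iff, Finset.mem_powersetCard]
  set ρ : ℝ := 1 - 1 / 2 ^ (k + 1) with hρ
  have h2pos : (0 : ℝ) < 2 ^ (k + 1) := by positivity
  have h2ge : (2 : ℝ) ≤ 2 ^ (k + 1) := by
    calc (2 : ℝ) = 2 ^ 1 := by norm_num
      _ ≤ 2 ^ (k + 1) := pow_le_pow_right₀ (by norm_num) (by omega)
  have hρpos : 0 < ρ := by
    have : (1 : ℝ) / 2 ^ (k + 1) ≤ 1 / 2 := by
      apply one_div_le_one_div_of_le (by norm_num) h2ge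
    rw [hρ]; linarith
  have hρlt : ρ < 1 := by
    have : (0 : ℝ) < 1 / 2 ^ (k + 1) := by positivity
    rw [hρ]; linarith
  -- lower bound for the ratio
  have hlow : ∀ᶠ m : ℕ in Filter.atTop,
      1 - ((m : ℝ) ^ (k + 1) * ρ ^ m) * (ρ ^ (k + 1))⁻¹ ≤
      (({X : Finset (Finset (Fin m)) | (∀ F ∈ X, F.card = k + 1) ∧
        Shellable (k + 1) X}.ncard : ℕ) : ℝ) /
      (({X : Finset (Finset (Fin m)) | ∀ F ∈ X, F.card = k + 1}.ncard : ℕ) : ℝ) := by
    filter_upwards [Filter.eventually_ge_atTop (k + 1)] with m hm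
    rw [hall m, hgoodset m, Set.ncard_coe_finset, Set.ncard_coe_finset]
    set U := Finset.powersetCard (k + 1) (Finset.univ : Finset (Fin m)) with hU
    have hUc : U.card = m.choose (k + 1) := by simp [hU]
    have htot : (U.powerset.card : ℝ) = 2 ^ (m.choose (k + 1)) := by
      rw [Finset.card_powerset, hUc]; push_cast; rfl
    have hsplit : (U.powerset.filter (fun X => Shellable (k + 1) X)).card +
        (U.powerset.filter (fun X => ¬ Shellable (k + 1) X)).card = U.powerset.card :=
      Finset.card_filter_add_card_filter_not _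
    have hbad := card_bad m k hm
    rw [← hU] at hbad
    have hbadR : ((U.powerset.filter (fun X => ¬ Shellable (k + 1) X)).card : ℝ) *
        (2 ^ (k + 1)) ^ (m - (k + 1)) ≤
        (m.choose (k + 1) : ℝ) * (2 ^ (m.choose (k + 1)) * (2 ^ (k + 1) - 1) ^ (m - (k + 1))) := by
      have h := (Nat.cast_le (α := ℝ)).2 hbad
      push_cast [Nat.cast_sub (Nat.one_le_two_pow : 1 ≤ 2 ^ (k + 1))] at h
      rw [← pow_mul]
      exact h
    have hρeq : (2 ^ (k + 1) - 1 : ℝ) = ρ * 2 ^ (k + 1) := by
      rw [hρ]; field_simp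
    have htotpos : (0 : ℝ) < 2 ^ (m.choose (k + 1)) := by positivity
    have hbad2 : ((U.powerset.filter (fun X => ¬ Shellable (k + 1) X)).card : ℝ) ≤
        (m.choose (k + 1) : ℝ) * 2 ^ (m.choose (k + 1)) * ρ ^ (m - (k + 1)) := by
      rw [hρeq, mul_pow] at hbadR
      have hp : (0 : ℝ) < (2 ^ (k + 1)) ^ (m - (k + 1)) := by positivity
      refine le_of_mul_le_mul_right ?_ hp
      calc _ ≤ _ := hbadR
        _ = _ := by ring
    have hchoose : (m.choose (k + 1) : ℝ) ≤ (m : ℝ) ^ (k + 1) := by
      exact_mod_cast Nat.choose_le_pow m (k + 1)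
    have hρm : ρ ^ (m - (k + 1)) = ρ ^ m * (ρ ^ (k + 1))⁻¹ := by
      rw [pow_sub₀ _ hρpos.ne' hm]
    rw [htot, le_div_iff₀ htotpos]
    have hgood : ((U.powerset.filter (fun X => Shellable (k + 1) X)).card : ℝ) =
        2 ^ (m.choose (k + 1)) -
          ((U.powerset.filter (fun X => ¬ Shellable (k + 1) X)).card : ℝ) := by
      rw [← htot, ← hsplit]; push_cast; ring
    rw [hgood, sub_mul, one_mul]
    apply sub_le_sub_left
    calc ((U.powerset.filter (fun X => ¬ Shellable (k + 1) X)).card : ℝ)
        ≤ (m.choose (k + 1) : ℝ) * 2 ^ (m.choose (k + 1)) * ρ ^ (m - (k + 1)) := hbad2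
      _ ≤ (m : ℝ) ^ (k + 1) * 2 ^ (m.choose (k + 1)) * ρ ^ (m - (k + 1)) := by
          gcongr
      _ = (m : ℝ) ^ (k + 1) * ρ ^ m * (ρ ^ (k + 1))⁻¹ * 2 ^ (m.choose (k + 1)) := by
          rw [hρm]; ring
  have hup : ∀ᶠ m : ℕ in Filter.atTop,
      (({X : Finset (Finset (Fin m)) | (∀ F ∈ X, F.card = k + 1) ∧
        Shellable (k + 1) X}.ncard : ℕ) : ℝ) /
      (({X : Finset (Finset (Fin m)) | ∀ F ∈ X, F.card = k + 1}.ncard : ℕ) : ℝ) ≤ 1 := by
    filter_upwards with m
    apply div_le_one_of_le₀ _ (Nat.cast_nonneg _)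
    have hsub : {X : Finset (Finset (Fin m)) | (∀ F ∈ X, F.card = k + 1) ∧
        Shellable (k + 1) X} ⊆ {X : Finset (Finset (Fin m)) | ∀ F ∈ X, F.card = k + 1} :=
      fun X hX => hX.1
    exact_mod_cast Set.ncard_le_ncard hsub (Set.toFinite _)
  have hlim : Filter.Tendsto (fun m : ℕ => 1 - ((m : ℝ) ^ (k + 1) * ρ ^ m) * (ρ ^ (k + 1))⁻¹)
      Filter.atTop (nhds 1) := by
    have h0 := tendsto_pow_const_mul_const_pow_of_abs_lt_one (k + 1)
      (show |ρ| < 1 by rw [abs_of_pos hρpos]; exact hρlt)
    have h1 := (h0.mul_const ((ρ ^ (k + 1))⁻¹)).const_sub 1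
    simpa using h1
  exact tendsto_of_tendsto_of_tendsto_of_le_of_le' hlim tendsto_const_nhds hlow hup

end Pool.Agent.Results.MP_87030c_co.AlmostAllShellable
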